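import Mathlib

/-! # Hilbert's Theorem 90 for continuous cocycles of the absolute Galois group -/

set_option autoImplicit false

namespace Pool.Agent.H59.SCT

variable {k κ : Type} [Field k] [Field κ] [Algebra k κ] [IsAlgClosure k κ] [CharZero k]

theorem h90 (ξ : (κ ≃ₐ[k] κ) → κ) (h0 : ∀ σ, ξ σ ≠ 0) (hmul : ∀ σ τ, ξ (σ * τ) = σ (ξ τ) * ξ σ)
    (hcont : ∃ E : IntermediateField k κ, FiniteDimensional k E ∧
      ∀ σ ∈ E.fixingSubgroup, ξ σ = 1) :
    ∃ δ : κ, δ ≠ 0 ∧ ∀ σ, ξ σ = σ δ / δ := by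
  classical
  obtain ⟨E₀, hE₀, h1⟩ := hcont
  haveI : Normal k κ := IsAlgClosure.normal k κ
  let E : IntermediateField k κ := IntermediateField.normalClosure k E₀ κ
  haveI : FiniteDimensional k E := inferInstance
  haveI : Normal k E := inferInstance
  have hle : E₀ ≤ E := E₀.le_normalClosure
  have h2 : ∀ σ ∈ E.fixingSubgroup, ξ σ = 1 := fun σ hσ =>
    h1 σ (IntermediateField.fixingSubgroup_antitone hle hσ)
  have hn : ∀ (σ τ : κ ≃ₐ[k] κ), τ ∈ E.fixingSubgroup → σ⁻¹ * τ * σ ∈ E.fixingSubgroup := by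
    intro σ τ hτ
    rw [IntermediateField.mem_fixingSubgroup_iff] at hτ ⊢
    intro z hz
    have h3 : σ z ∈ E := by
      have h4 := AlgEquiv.restrictNormal_commutes σ E ⟨z, hz⟩
      have h5 : algebraMap E κ ((σ.restrictNormal E) ⟨z, hz⟩) = σ z := h4
      rw [← h5]
      exact ((σ.restrictNormal E) ⟨z, hz⟩).2
    change σ.symm (τ (σ z)) = z
    rw [hτ _ h3, σ.symm_apply_apply]
  have hmem : ∀ σ, ξ σ ∈ E := by
    intro σ
    haveI : IsGalois k κ := { }
    rw [← InfiniteGalois.fixedField_fixingSubgroup E, IntermediateField.mem_fixedField_iff]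
    intro τ hτ
    have h3 : ξ (τ * σ) = τ (ξ σ) := by rw [hmul, h2 τ hτ, mul_one]
    have h4 : ξ (τ * σ) = ξ σ := by
      have h5 : τ * σ = σ * (σ⁻¹ * τ * σ) := by group
      rw [h5, hmul, h2 _ (hn σ τ hτ), map_one, one_mul]
    rw [← h3, h4]
  have hdep : ∀ σ τ : κ ≃ₐ[k] κ, (∀ z ∈ E, σ z = τ z) → ξ σ = ξ τ := by
    intro σ τ h
    have h5 : σ = τ * (τ⁻¹ * σ) := by group
    have h6 : τ⁻¹ * σ ∈ E.fixingSubgroup := by
      rw [IntermediateField.mem_fixingSubgroup_iff]
      intro z hz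
      change τ.symm (σ z) = z
      rw [h z hz, τ.symm_apply_apply]
    rw [h5, hmul, h2 _ h6, map_one, one_mul]
  have hsurj := AlgEquiv.restrictNormalHom_surjective (F := k) (K₁ := E) (E := κ)
  choose lift hlift using hsurj
  have hl : ∀ (g : E ≃ₐ[k] E) (z : E), lift g (z : κ) = ((g z : E) : κ) := by
    intro g z
    have h3 := AlgEquiv.restrictNormal_commutes (lift g) E z
    have h4 : (lift g).restrictNormal E = g := hlift g
    rw [h4] at h3
    exact h3.symm
  let f : (E ≃ₐ[k] E) → Eˣ := fun g => Units.mk0 ⟨ξ (lift g), hmem _⟩ (fun h => h0 (lift g)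
    (congrArg (fun z : E => (z : κ)) h))
  have hf : ∀ g, ((f g : E) : κ) = ξ (lift g) := fun g => rfl
  have hcoc : groupCohomology.IsMulCocycle₁ f := by
    intro g h
    apply Units.ext
    apply Subtype.ext
    change ξ (lift (g * h)) = ((g (f h : E) : E) : κ) * ξ (lift g)
    have h3 : ξ (lift (g * h)) = ξ (lift g * lift h) := by
      apply hdep
      intro z hz
      rw [AlgEquiv.mul_apply, hl _ ⟨z, hz⟩, hl h ⟨z, hz⟩, hl g]
      rfl
    rw [h3, hmul, ← hl g, hf]
  obtain ⟨β, hβ⟩ := groupCohomology.isMulCoboundary₁_of_isMulCocycle₁_of_aut_to_units f hcoc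
  refine ⟨((β : E) : κ), ?_, ?_⟩
  · intro h
    exact β.ne_zero (Subtype.ext h)
  · intro σ
    have h3 := hβ (σ.restrictNormal E)
    have h4 := congrArg (fun u : Eˣ => ((u : E) : κ)) h3
    have h5 : ((f (σ.restrictNormal E) : E) : κ) = ξ σ := by
      rw [hf]
      apply hdep
      intro z hz
      rw [hl _ ⟨z, hz⟩]
      exact AlgEquiv.restrictNormal_commutes σ E ⟨z, hz⟩
    have h6 : (((σ.restrictNormal E • β / β : Eˣ) : E) : κ) = σ ((β : E) : κ) / ((β : E) : κ) := by
      rw [Units.val_div_eq_div_val]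
      have h7 : ((σ.restrictNormal E • β : Eˣ) : E) = σ.restrictNormal E (β : E) := rfl
      rw [h7]
      change (algebraMap E κ) (σ.restrictNormal E (β : E) / (β : E)) = _
      rw [map_div₀, AlgEquiv.restrictNormal_commutes]
      rfl
    rw [← h5, ← h4, h6]

end Pool.Agent.H59.SCT
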