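import Pool.Agent.H59.SCT.Defs
import Pool.Agent.H59.SCT.H90

/-! # The twist of a radical that is defined by a section -/

set_option autoImplicit false
set_option linter.style.haveILetI false

namespace Pool.Agent.H59.SCT

variable {k Ω : Type} [Field k] [CharZero k] [Field Ω] [Algebra k Ω] [IsAlgClosed Ω]
  {F : IntermediateField k Ω} {N : IntermediateField F Ω}

omit [CharZero k] [IsAlgClosed Ω] in
/-- an element is fixed by an open subgroup -/
theorem exists_open [Algebra.IsAlgebraic F Ω] (s : Splitting F N) (z : N) :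
    ∃ E : IntermediateField k (algebraicClosure k Ω), FiniteDimensional k E ∧
      ∀ σ ∈ E.fixingSubgroup, s.toHom σ z = z := by
  let E₀ : IntermediateField F N := IntermediateField.adjoin F {z}
  haveI : Algebra.IsAlgebraic F N := inferInstance
  haveI hE₀ : FiniteDimensional F E₀ :=
    IntermediateField.adjoin.finiteDimensional (Algebra.IsAlgebraic.isAlgebraic z).isIntegral
  have hopen : (E₀.fixingSubgroup : Set (N ≃ₐ[F] N)) ∈ nhds (1 : N ≃ₐ[F] N) := by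
    rw [krullTopology_mem_nhds_one_iff]
    exact ⟨E₀, hE₀, le_refl _⟩
  have hpre : s.toHom ⁻¹' (E₀.fixingSubgroup : Set (N ≃ₐ[F] N)) ∈ nhds 1 := by
    apply s.cont.continuousAt.preimage_mem_nhds
    rw [map_one]
    exact hopen
  rw [krullTopology_mem_nhds_one_iff] at hpre
  obtain ⟨E, hE, hE'⟩ := hpre
  refine ⟨E, hE, fun σ hσ => ?_⟩
  have h1 := hE' hσ
  rw [Set.mem_preimage, SetLike.mem_coe, IntermediateField.mem_fixingSubgroup_iff] at h1
  exact h1 z (IntermediateField.mem_adjoin_simple_self F z)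

/-- **the twist** -/
theorem exists_twist [Algebra.IsAlgebraic F Ω] (s : Splitting F N)
    (hκ : ∀ c : algebraicClosure k Ω, (c : Ω) ∈ N) {ℓ : ℕ} (hℓ : 0 < ℓ) (y : Ω) (hy : y ∈ N)
    (hy0 : y ≠ 0) (hyF : y ^ ℓ ∈ F) :
    ∃ (δ : algebraicClosure k Ω) (d : k) (z : N), δ ≠ 0 ∧ d ≠ 0 ∧ (z : Ω) = y / δ ∧
      algebraMap k Ω d * (z : Ω) ^ ℓ = y ^ ℓ ∧ (δ : Ω) ^ ℓ = algebraMap k Ω d ∧
      ∀ σ, s.toHom σ z = z := by
  haveI hac : IsAlgClosure k (algebraicClosure k Ω) := inferInstance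
  haveI : IsAlgClosed (algebraicClosure k Ω) := hac.isAlgClosed
  haveI : Algebra.IsAlgebraic k (algebraicClosure k Ω) := hac.isAlgebraic
  haveI : Normal k (algebraicClosure k Ω) := IsAlgClosure.normal k _
  haveI : IsGalois k (algebraicClosure k Ω) := { }
  let yN : N := ⟨y, hy⟩
  have hyN0 : yN ≠ 0 := fun h => hy0 (congrArg (fun w : N => (w : Ω)) h)
  have hpow : yN ^ ℓ = algebraMap F N ⟨y ^ ℓ, hyF⟩ := Subtype.ext rfl
  have hr : ∀ σ, (s.toHom σ yN / yN) ^ ℓ = 1 := by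
    intro σ
    rw [div_pow, ← map_pow, hpow, (s.toHom σ).commutes, div_self]
    rw [← hpow]
    exact pow_ne_zero _ hyN0
  have hrΩ : ∀ σ, (((s.toHom σ yN / yN : N) : Ω)) ^ ℓ = 1 := fun σ =>
    congrArg (fun w : N => (w : Ω)) (hr σ)
  have hmem : ∀ σ, ((s.toHom σ yN / yN : N) : Ω) ∈ algebraicClosure k Ω := by
    intro σ
    rw [mem_algebraicClosure_iff]
    have h1 : IsIntegral k (((s.toHom σ yN / yN : N) : Ω)) := by
      apply IsIntegral.of_pow hℓ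
      rw [hrΩ]
      exact isIntegral_one
    exact h1.isAlgebraic
  let ξ : (algebraicClosure k Ω ≃ₐ[k] algebraicClosure k Ω) → algebraicClosure k Ω :=
    fun σ => ⟨_, hmem σ⟩
  have hξ : ∀ σ, ((ξ σ : algebraicClosure k Ω) : Ω) = ((s.toHom σ yN / yN : N) : Ω) :=
    fun σ => rfl
  let ι : algebraicClosure k Ω → N := fun c => ⟨c, hκ c⟩
  have hιm : ∀ c c', ι (c * c') = ι c * ι c' := fun c c' => rfl
  have hs : ∀ σ, s.toHom σ yN = ι (ξ σ) * yN := by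
    intro σ
    have h1 : ι (ξ σ) = s.toHom σ yN / yN := rfl
    rw [h1, div_mul_cancel₀ _ hyN0]
  have hsι : ∀ σ c, s.toHom σ (ι c) = ι (σ c) := fun σ c => Subtype.ext (s.compat σ c (ι c) rfl)
  have hξ0 : ∀ σ, ξ σ ≠ 0 := by
    intro σ h
    have h1 := hrΩ σ
    rw [← hξ, h] at h1
    rw [ZeroMemClass.coe_zero, zero_pow hℓ.ne'] at h1
    exact zero_ne_one h1
  have hmul : ∀ σ τ, ξ (σ * τ) = σ (ξ τ) * ξ σ := by
    intro σ τ
    have h1 : ι (ξ (σ * τ)) * yN = ι (σ (ξ τ) * ξ σ) * yN := by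
      rw [← hs, map_mul, AlgEquiv.mul_apply, hs τ, map_mul, hsι, hs, hιm, mul_assoc]
    have h2 := mul_right_cancel₀ hyN0 h1
    exact Subtype.ext (congrArg (fun w : N => (w : Ω)) h2)
  obtain ⟨δ, hδ0, hδ⟩ := h90 ξ hξ0 hmul (by
    obtain ⟨E, hE, h1⟩ := exists_open s yN
    refine ⟨E, hE, fun σ hσ => ?_⟩
    apply Subtype.ext
    rw [hξ, h1 σ hσ, div_self hyN0]
    rfl)
  have hδN0 : ι δ ≠ 0 := fun h => hδ0 (Subtype.ext (congrArg (fun w : N => (w : Ω)) h))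
  have hδℓ : ∀ σ : algebraicClosure k Ω ≃ₐ[k] algebraicClosure k Ω, σ (δ ^ ℓ) = δ ^ ℓ := by
    intro σ
    have h1 : (ξ σ) ^ ℓ = 1 := Subtype.ext (hrΩ σ)
    rw [hδ, div_pow, ← map_pow] at h1
    rwa [div_eq_one_iff_eq (pow_ne_zero _ hδ0)] at h1
  obtain ⟨d, hd⟩ := IntermediateField.mem_bot.1 ((InfiniteGalois.mem_bot_iff_fixed (δ ^ ℓ)).2 hδℓ)
  have hdΩ : (δ : Ω) ^ ℓ = algebraMap k Ω d := by
    have h1 := congrArg (fun c : algebraicClosure k Ω => (c : Ω)) hd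
    exact h1.symm
  have hδΩ : (δ : Ω) ≠ 0 := fun h => hδ0 (Subtype.ext h)
  refine ⟨δ, d, yN / ι δ, hδ0, ?_, rfl, ?_, hdΩ, ?_⟩
  · rintro rfl
    rw [map_zero] at hdΩ
    exact pow_ne_zero _ hδΩ hdΩ
  · have h1 : ((yN / ι δ : N) : Ω) = y / δ := rfl
    rw [h1, div_pow, ← hdΩ, mul_div_cancel₀ _ (pow_ne_zero _ hδΩ)]
  · intro σ
    rw [map_div₀, hs, hsι]
    have h1 : ι (ξ σ) * ι δ = ι (σ δ) := by
      rw [← hιm, hδ, div_mul_cancel₀ _ hδ0]
    have h2 : ι (σ δ) ≠ 0 := by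
      rw [← hsι]
      exact (_root_.map_ne_zero (s.toHom σ)).2 hδN0
    rw [div_eq_div_iff h2 hδN0, ← h1]
    ring

end Pool.Agent.H59.SCT
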