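import Pool.Agent.H59.SCT.Chg
import Pool.Agent.H59.SCT.Twist
import Pool.Agent.V11235.SL.Uni

/-! # The field `k(x, y')` attached to a section -/

set_option autoImplicit false
set_option linter.style.haveILetI false

namespace Pool.Agent.H59.SCT

open Pool.Agent.Y157.PS

section

variable {k Ω : Type} [Field k] [Field Ω] [Algebra k Ω]

theorem geom_twist (x y y' : Ω) (δ : algebraicClosure k Ω) (hδ : δ ≠ 0) (h : y' = y / δ) :
    geom (IntermediateField.adjoin k {x, y'}) = geom (IntermediateField.adjoin k {x, y}) := by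
  have hδΩ : (δ : Ω) ≠ 0 := fun h => hδ (Subtype.ext h)
  have h1 : ∀ (y y' : Ω) (c : algebraicClosure k Ω), y' = y * (c : Ω) →
      geom (IntermediateField.adjoin k {x, y'}) ≤ geom (IntermediateField.adjoin k {x, y}) := by
    intro y y' c hy
    have hc : (c : Ω) ∈ geom (IntermediateField.adjoin k {x, y}) := const_mem_geom _ c
    have ha : IntermediateField.adjoin k {x, y} ≤ geom (IntermediateField.adjoin k {x, y}) :=
      le_sup_left
    refine sup_le ?_ le_sup_right
    rw [IntermediateField.adjoin_le_iff]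
    rintro z (rfl | rfl)
    · exact ha (IntermediateField.subset_adjoin _ _ (by simp))
    · rw [hy]
      exact mul_mem (ha (IntermediateField.subset_adjoin _ _ (by simp))) hc
  apply le_antisymm
  · exact h1 y y' δ⁻¹ (by rw [h, div_eq_mul_inv]; rfl)
  · exact h1 y' y δ (by rw [h, div_mul_cancel₀ _ hδΩ])

theorem proEll_twist (ℓ : ℕ) (x y y' : Ω) (δ : algebraicClosure k Ω) (hδ : δ ≠ 0) (h : y' = y / δ) :
    proEll ℓ (IntermediateField.adjoin k {x, y'}) =
      proEll ℓ (IntermediateField.adjoin k {x, y}) := by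
  let G : IntermediateField k Ω → IntermediateField k Ω :=
    fun K => (maxProEll ℓ k K Ω).restrictScalars k
  change G (geom _) = G (geom _)
  rw [geom_twist x y y' δ hδ h]

/-- the algebraicity of `Ω` over a field that contains `x` -/
theorem alg_over {x : Ω} (halg : Algebra.IsAlgebraic (IntermediateField.adjoin k {x}) Ω)
    (F : IntermediateField k Ω) (hx : x ∈ F) : Algebra.IsAlgebraic F Ω := by
  have hle : IntermediateField.adjoin k {x} ≤ F := by
    rw [IntermediateField.adjoin_le_iff, Set.singleton_subset_iff]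
    exact hx
  constructor
  intro z
  obtain ⟨p, hp, hpz⟩ := halg.isAlgebraic z
  let i : IntermediateField.adjoin k {x} →+* F := IntermediateField.inclusion hle
  refine ⟨p.map i, (Polynomial.map_ne_zero_iff i.injective).2 hp, ?_⟩
  rw [Polynomial.aeval_def, Polynomial.eval₂_map]
  have h1 : (algebraMap F Ω).comp i = algebraMap (IntermediateField.adjoin k {x}) Ω := rfl
  rw [h1]
  exact hpz

/-- **the reduction**: a section for `F ∋ x` fixes `y' = y / δ` for some constant `δ`, and is a section
for the field `F' = k(x, y')` which is the identity on `F` -/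
theorem reduction [CharZero k] [IsAlgClosed Ω] {ℓ : ℕ} (hℓ : 0 < ℓ) {x y : Ω}
    (hx : Transcendental k x)
    (halg : Algebra.IsAlgebraic (IntermediateField.adjoin k {x}) Ω)
    (hy : y ≠ 0) (hyx : y ^ ℓ ∈ IntermediateField.adjoin k {x})
    (F : IntermediateField k Ω) (hxF : x ∈ F)
    (hF : F ≤ proEll ℓ (IntermediateField.adjoin k {x, y})) (N : IntermediateField F Ω)
    (hN : ∀ z ∈ proEll ℓ (IntermediateField.adjoin k {x, y}), z ∈ N) (s : Splitting F N) :
    ∃ (δ : algebraicClosure k Ω) (d : k) (y' : Ω), δ ≠ 0 ∧ d ≠ 0 ∧ y' = y / δ ∧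
      algebraMap k Ω d * y' ^ ℓ = y ^ ℓ ∧ (δ : Ω) ^ ℓ = algebraMap k Ω d ∧ y' ∈ N ∧
      ∃ (h : ∀ z ∈ IntermediateField.adjoin k {x, y'}, z ∈ N)
        (s' : Splitting (IntermediateField.adjoin k {x, y'})
          (same N (IntermediateField.adjoin k {x, y'}) h)),
        (∀ σ (z : same N (IntermediateField.adjoin k {x, y'}) h) (w : N), (w : Ω) = (z : Ω) →
          ((s'.toHom σ z : same N (IntermediateField.adjoin k {x, y'}) h) : Ω) =
            ((s.toHom σ w : N) : Ω)) ∧
        (∀ z, z ∈ geomPro ℓ k (IntermediateField.adjoin k {x, y'}) Ω ↔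
          z ∈ proEll ℓ (IntermediateField.adjoin k {x, y})) := by
  have hle : IntermediateField.adjoin k {x} ≤ F := by
    rw [IntermediateField.adjoin_le_iff, Set.singleton_subset_iff]
    exact hxF
  haveI := alg_over halg F hxF
  have hκM : ∀ c : algebraicClosure k Ω, (c : Ω) ∈ proEll ℓ (IntermediateField.adjoin k {x, y}) :=
    fun c => geom_le_proEll _ (const_mem_geom _ c)
  have hκ : ∀ c : algebraicClosure k Ω, (c : Ω) ∈ N := fun c => hN _ (hκM c)
  have hyM : y ∈ proEll ℓ (IntermediateField.adjoin k {x, y}) :=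
    geom_le_proEll _ ((le_sup_left : _ ≤ geom (IntermediateField.adjoin k {x, y}))
      (IntermediateField.subset_adjoin _ _ (by simp)))
  obtain ⟨δ, d, z, hδ, hd, hz, h1, h2, h3⟩ := exists_twist s hκ hℓ y (hN y hyM) hy (hle hyx)
  have hFN : ∀ z ∈ F, z ∈ N := fun z hz => N.algebraMap_mem ⟨z, hz⟩
  have hadj : ∀ w ∈ IntermediateField.adjoin k {x, (z : Ω)}, w ∈ N := by
    have h4 : IntermediateField.adjoin k {x, (z : Ω)} ≤ N.restrictScalars k := by
      rw [IntermediateField.adjoin_le_iff]
      rintro w (rfl | rfl)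
      · exact hFN _ hxF
      · exact z.2
    intro w hw
    exact h4 hw
  have hfix : ∀ σ, ∀ w : N, (w : Ω) ∈ IntermediateField.adjoin k {x, (z : Ω)} →
      s.toHom σ w = w := by
    intro σ w hw
    have h4 : IntermediateField.adjoin k {x, (z : Ω)} ≤
        (Pool.Agent.V11235.SL.fixF N (s.toHom σ)).restrictScalars k := by
      rw [IntermediateField.adjoin_le_iff]
      rintro w (rfl | rfl)
      · exact ⟨hFN _ hxF, (s.toHom σ).commutes ⟨_, hxF⟩⟩
      · exact ⟨z.2, h3 σ⟩
    obtain ⟨h5, h6⟩ := h4 hw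
    exact h6
  obtain ⟨s', hs'⟩ := changeBase (h := hadj) s hfix
  refine ⟨δ, d, z, hδ, hd, hz, h1, h2, z.2, hadj, s', hs', fun w => ?_⟩
  rw [← proEll_iff, proEll_twist ℓ x y z δ hδ hz]

end

end Pool.Agent.H59.SCT
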