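import Pool.Agent.H59.SCT.Defs
import Pool.Agent.Y157.PS.Stm5

/-! # Change of the base field of a splitting, and comparison with the starting library -/

set_option autoImplicit false
set_option linter.style.haveILetI false

namespace Pool.Agent.H59.SCT

open Pool.Agent.Y157.PS

section transport

variable {ℓ : ℕ} {k Ω : Type} [Field k] [Field Ω] [Algebra k Ω]

/-- the same subfield over an isomorphic base -/
def transf {K K' : Type} [Field K] [Field K'] [Algebra K Ω] [Algebra K' Ω] (e : K ≃+* K')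
    (he : ∀ z, algebraMap K' Ω (e z) = algebraMap K Ω z) (L : IntermediateField K Ω) :
    IntermediateField K' Ω where
  toSubalgebra :=
    { carrier := L
      mul_mem' := fun ha hb => mul_mem ha hb
      add_mem' := fun ha hb => add_mem ha hb
      algebraMap_mem' := fun r => by
        have h1 := he (e.symm r)
        rw [e.apply_symm_apply] at h1
        rw [h1]
        exact L.algebraMap_mem _ }
  inv_mem' := fun _ ha => inv_mem ha

theorem mem_transf {K K' : Type} [Field K] [Field K'] [Algebra K Ω] [Algebra K' Ω] (e : K ≃+* K')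
    (he : ∀ z, algebraMap K' Ω (e z) = algebraMap K Ω z) (L : IntermediateField K Ω) (z : Ω) :
    z ∈ transf e he L ↔ z ∈ L := Iff.rfl

theorem maxPro_le {K K' : Type} [Field K] [Field K'] [Algebra K Ω] [Algebra K' Ω] (e : K ≃+* K')
    (he : ∀ z, algebraMap K' Ω (e z) = algebraMap K Ω z) {z : Ω}
    (hz : z ∈ maxPro ℓ k K Ω) : z ∈ maxPro ℓ k K' Ω := by
  have he' : ∀ z, algebraMap K Ω (e.symm z) = algebraMap K' Ω z := fun z => by
    rw [← he, e.apply_symm_apply]
  have h1 : maxPro ℓ k K Ω ≤ transf e.symm he' (maxPro ℓ k K' Ω) := by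
    refine iSup_le ?_
    rintro ⟨L, ⟨h1, h2, m, h3⟩, h4⟩ w hw
    rw [mem_transf]
    let L' := transf e he L
    let g : L ≃+* L' :=
      { toFun := fun z => ⟨z.1, z.2⟩
        invFun := fun z => ⟨z.1, z.2⟩
        left_inv := fun _ => rfl
        right_inv := fun _ => rfl
        map_mul' := fun _ _ => rfl
        map_add' := fun _ _ => rfl }
    have hcomp : (algebraMap K' L').comp (e : K →+* K') = (g : L →+* L').comp (algebraMap K L) := by
      ext z
      exact he z
    have hr : Module.finrank K L = Module.finrank K' L' :=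
      Algebra.finrank_eq_of_equiv_equiv e g hcomp
    have hpos : 0 < Module.finrank K L := Module.finrank_pos
    have hfin : FiniteDimensional K' L' := FiniteDimensional.of_finrank_pos (hr ▸ hpos)
    have hgal : IsGalois K' L' := IsGalois.of_equiv_equiv (f := e) (g := g) hcomp
    have hL' : L' ≤ maxPro ℓ k K' Ω := by
      refine le_iSup (fun L : {L : IntermediateField K' Ω // Lev ℓ L ∧ Unr k K' Ω L} => L.1)
        ⟨L', ⟨hfin, hgal, m, by rw [← hr, h3]⟩, ?_⟩
      intro W hW z hz hz0
      obtain ⟨t, ht, h5⟩ := h4 W hW z hz hz0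
      exact ⟨e t, (map_ne_zero_iff _ e.injective).2 ht, by rw [he]; exact h5⟩
    exact hL' hw
  exact h1 hz

theorem maxPro_iff {K K' : Type} [Field K] [Field K'] [Algebra K Ω] [Algebra K' Ω] (e : K ≃+* K')
    (he : ∀ z, algebraMap K' Ω (e z) = algebraMap K Ω z) {z : Ω} :
    z ∈ maxPro ℓ k K Ω ↔ z ∈ maxPro ℓ k K' Ω :=
  ⟨maxPro_le e he, maxPro_le e.symm fun z => by rw [← he, e.apply_symm_apply]⟩

theorem iSup_congr_prop {α : Type} [CompleteLattice α] {P Q : α → Prop} (h : ∀ L, P L ↔ Q L) :
    (⨆ L : {L // P L}, L.1) = ⨆ L : {L // Q L}, L.1 := by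
  have h1 : P = Q := funext fun L => propext (h L)
  subst h1
  rfl

theorem maxProEll_eq (K : Type) [Field K] [Algebra K Ω] :
    maxProEll ℓ k K Ω = maxPro ℓ k K Ω := by
  unfold maxProEll maxPro
  refine iSup_congr_prop fun L => ?_
  constructor
  · rintro ⟨⟨h1, h2, h3⟩, h4⟩
    refine ⟨⟨h1, h2, h3⟩, fun W hW z hz hz0 => ?_⟩
    obtain ⟨t, ht, h5, h6⟩ := h4 W hW z hz hz0
    exact ⟨t, ht, div_ne_zero hz0 ((_root_.map_ne_zero _).2 ht), h5, h6⟩
  · rintro ⟨⟨h1, h2, h3⟩, h4⟩
    refine ⟨⟨h1, h2, h3⟩, fun W hW z hz hz0 => ?_⟩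
    obtain ⟨t, ht, -, h5, h6⟩ := h4 W hW z hz hz0
    exact ⟨t, ht, h5, h6⟩

theorem geom_iff (F : IntermediateField k Ω) (z : Ω) : z ∈ geom F ↔ z ∈ geomF k F Ω := by
  have h1 : (geomF k F Ω).restrictScalars k = geom F := by
    unfold geomF geom
    rw [IntermediateField.restrictScalars_adjoin_eq_sup, IntermediateField.adjoin_self]
  rw [← h1]
  rfl

/-- comparison with the field of the starting library -/
theorem proEll_iff (F : IntermediateField k Ω) (z : Ω) :
    z ∈ proEll ℓ F ↔ z ∈ geomPro ℓ k F Ω := by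
  unfold proEll geomPro
  rw [maxProEll_eq]
  let e : geom F ≃+* geomF k F Ω :=
    { toFun := fun z => ⟨z.1, (geom_iff F _).1 z.2⟩
      invFun := fun z => ⟨z.1, (geom_iff F _).2 z.2⟩
      left_inv := fun _ => rfl
      right_inv := fun _ => rfl
      map_mul' := fun _ _ => rfl
      map_add' := fun _ _ => rfl }
  exact maxPro_iff (ℓ := ℓ) (k := k) e (fun z => rfl)

theorem geom_le_proEll (F : IntermediateField k Ω) : geom F ≤ proEll ℓ F := fun z hz =>
  (maxProEll ℓ k (geom F) Ω).algebraMap_mem ⟨z, hz⟩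

theorem const_mem_geom (F : IntermediateField k Ω) (c : algebraicClosure k Ω) :
    (c : Ω) ∈ geom F := (le_sup_right : algebraicClosure k Ω ≤ geom F) c.2

end transport

section change

variable {k Ω : Type} [Field k] [Field Ω] [Algebra k Ω]

/-- the same field as an extension of a different field -/
def same {F : IntermediateField k Ω} (N : IntermediateField F Ω) (F' : IntermediateField k Ω)
    (h : ∀ z ∈ F', z ∈ N) : IntermediateField F' Ω where
  toSubalgebra :=
    { carrier := N
      mul_mem' := fun ha hb => mul_mem ha hb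
      add_mem' := fun ha hb => add_mem ha hb
      algebraMap_mem' := fun r => h _ r.2 }
  inv_mem' := fun _ ha => inv_mem ha

variable {F : IntermediateField k Ω} {N : IntermediateField F Ω} {F' : IntermediateField k Ω}
  {h : ∀ z ∈ F', z ∈ N}

theorem mem_same (z : Ω) : z ∈ same N F' h ↔ z ∈ N := Iff.rfl

/-- the identity -/
def sameEquiv (N : IntermediateField F Ω) (F' : IntermediateField k Ω)
    (h : ∀ z ∈ F', z ∈ N) : N ≃+* same N F' h where
  toFun z := ⟨z.1, z.2⟩
  invFun z := ⟨z.1, z.2⟩
  left_inv _ := rfl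
  right_inv _ := rfl
  map_mul' _ _ := rfl
  map_add' _ _ := rfl

theorem sameEquiv_coe (z : N) : ((sameEquiv N F' h z : same N F' h) : Ω) = z := rfl

/-- the automorphism of the same field -/
def sameAut (τ : N ≃ₐ[F] N) (hτ : ∀ z : N, (z : Ω) ∈ F' → τ z = z) :
    same N F' h ≃ₐ[F'] same N F' h :=
  AlgEquiv.ofRingEquiv
    (f := (sameEquiv N F' h).symm.trans ((τ : N ≃+* N).trans (sameEquiv N F' h)))
    (fun r => by
      have h1 : (sameEquiv N F' h).symm (algebraMap F' (same N F' h) r) = ⟨(r : Ω), h _ r.2⟩ := rfl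
      change sameEquiv N F' h (τ ((sameEquiv N F' h).symm (algebraMap F' (same N F' h) r))) = _
      rw [h1, hτ _ r.2]
      rfl)

theorem sameAut_apply (τ : N ≃ₐ[F] N) (hτ : ∀ z : N, (z : Ω) ∈ F' → τ z = z) (z : same N F' h) :
    sameAut (h := h) τ hτ z = sameEquiv N F' h (τ ((sameEquiv N F' h).symm z)) := rfl

theorem sameAut_coe (τ : N ≃ₐ[F] N) (hτ : ∀ z : N, (z : Ω) ∈ F' → τ z = z) (z : same N F' h)
    (w : N) (hw : (w : Ω) = (z : Ω)) :
    ((sameAut (h := h) τ hτ z : same N F' h) : Ω) = ((τ w : N) : Ω) := by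
  have h1 : (sameEquiv N F' h).symm z = w := Subtype.ext hw.symm
  rw [sameAut_apply, h1]
  rfl

/-- **change of the base field** -/
theorem changeBase [Algebra.IsAlgebraic F Ω] (s : Splitting F N)
    (hs : ∀ σ, ∀ z : N, (z : Ω) ∈ F' → s.toHom σ z = z) :
    ∃ s' : Splitting F' (same N F' h), ∀ σ (z : same N F' h) (w : N), (w : Ω) = (z : Ω) →
      ((s'.toHom σ z : same N F' h) : Ω) = ((s.toHom σ w : N) : Ω) := by
  classical
  let T : (algebraicClosure k Ω ≃ₐ[k] algebraicClosure k Ω) →*
      (same N F' h ≃ₐ[F'] same N F' h) :=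
    { toFun := fun σ => sameAut (h := h) (s.toHom σ) (hs σ)
      map_one' := by
        ext z
        rw [sameAut_coe (s.toHom 1) (hs 1) z ((sameEquiv N F' h).symm z) rfl, map_one]
        rfl
      map_mul' := fun σ τ => by
        ext z
        rw [AlgEquiv.mul_apply,
          sameAut_coe (s.toHom (σ * τ)) (hs _) z ((sameEquiv N F' h).symm z) rfl, map_mul,
          AlgEquiv.mul_apply,
          sameAut_coe (s.toHom σ) (hs _) _ (s.toHom τ ((sameEquiv N F' h).symm z)) ?_]
        rw [sameAut_coe (s.toHom τ) (hs _) z ((sameEquiv N F' h).symm z) rfl] }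
  have hT : ∀ σ (z : same N F' h) (w : N), (w : Ω) = (z : Ω) →
      ((T σ z : same N F' h) : Ω) = ((s.toHom σ w : N) : Ω) := fun σ z w hw =>
    sameAut_coe (s.toHom σ) (hs σ) z w hw
  refine ⟨⟨T, ?_, fun σ c z hz => ?_⟩, fun σ z w hw => hT σ z w hw⟩
  · refine continuous_of_continuousAt_one T ?_
    rw [ContinuousAt, map_one]
    intro U hU
    rw [krullTopology_mem_nhds_one_iff] at hU
    obtain ⟨E, hE, hEU⟩ := hU
    haveI := hE
    let bs := Module.finBasis F' E
    -- the corresponding finite extension of `F`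
    let w : Fin (Module.finrank F' E) → N := fun i => (sameEquiv N F' h).symm (bs i : same N F' h)
    let E₀ : IntermediateField F N := IntermediateField.adjoin F (Set.range w)
    haveI : Algebra.IsAlgebraic F N := inferInstance
    haveI hE₀ : FiniteDimensional F E₀ := by
      refine IntermediateField.finiteDimensional_adjoin fun z _ => ?_
      exact (Algebra.IsAlgebraic.isAlgebraic z).isIntegral
    have hopen : (E₀.fixingSubgroup : Set (N ≃ₐ[F] N)) ∈ nhds (1 : N ≃ₐ[F] N) := by
      rw [krullTopology_mem_nhds_one_iff]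
      exact ⟨E₀, hE₀, le_refl _⟩
    have hpre : s.toHom ⁻¹' (E₀.fixingSubgroup : Set (N ≃ₐ[F] N)) ∈ nhds 1 := by
      apply s.cont.continuousAt.preimage_mem_nhds
      rw [map_one]
      exact hopen
    rw [Filter.mem_map]
    refine Filter.mem_of_superset hpre fun σ hσ => Set.mem_preimage.2 (hEU ?_)
    rw [Set.mem_preimage, SetLike.mem_coe, IntermediateField.mem_fixingSubgroup_iff] at hσ
    rw [SetLike.mem_coe, IntermediateField.mem_fixingSubgroup_iff]
    intro z hz
    have hfix : ∀ i, T σ (bs i : same N F' h) = (bs i : same N F' h) := by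
      intro i
      apply Subtype.ext
      refine (hT σ (bs i : same N F' h) (w i) rfl).trans ?_
      rw [hσ (w i) (IntermediateField.subset_adjoin _ _ ⟨i, rfl⟩)]
      rfl
    have h2 : (⟨z, hz⟩ : E) = ∑ i, bs.repr ⟨z, hz⟩ i • bs i := (bs.sum_repr _).symm
    have h3 : z = ∑ i, bs.repr ⟨z, hz⟩ i • (bs i : same N F' h) := by
      have h4 : E.val ⟨z, hz⟩ = E.val (∑ i, bs.repr ⟨z, hz⟩ i • bs i) := congrArg E.val h2
      rw [map_sum] at h4
      refine h4.trans (Finset.sum_congr rfl fun i _ => ?_)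
      rw [map_smul]
      rfl
    rw [h3, map_sum]
    refine Finset.sum_congr rfl fun i _ => ?_
    rw [map_smul, hfix]
  · rw [hT σ z ((sameEquiv N F' h).symm z) rfl]
    exact s.compat σ c _ hz

end change

end Pool.Agent.H59.SCT
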