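import Pool.Agent.H59.SCT.Adj
import Pool.Agent.Y157.PS.All

/-! # The maximal unramified pro-`ℓ` extension of the fields between `κ(x)` and `M` -/

set_option autoImplicit false
set_option linter.style.haveILetI false

open Polynomial

namespace Pool.Agent.H59.SCT

open Pool.Agent.Y157.PS Pool.Agent.Y948.PS

section

variable {κ R Ω : Type} [Field κ] [Field R] [Field Ω] [Algebra κ R] [Algebra R Ω] [Algebra κ Ω]
  [IsScalarTower κ R Ω]

/-- uniformisers of `κ(x, Y)` -/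
theorem hu_K0 [IsAlgClosed κ] [CharZero κ] [IsAlgClosure R Ω] {ℓ : ℕ} [Fact ℓ.Prime] {x : R}
    (hx : RatF κ x) {B : Finset κ} (hdvd : ℓ ∣ B.card) (hB : B.Nonempty) {Y : Ω}
    (hY : Y ^ ℓ = ∏ e ∈ B, (algebraMap R Ω x - algebraMap κ Ω e)) :
    HU κ (IntermediateField.adjoin R {Y}) := by
  intro W hκ hW
  have hRW : ∃ z : R, algebraMap R Ω z ∉ W := by
    by_contra hc
    push Not at hc
    exact hW (top_of_R W hc)
  obtain ⟨π, h1, h2, h3, h4⟩ := Pool.Agent.Y809.PS.k0 ℓ κ R Ω x hx B hdvd hB Y hY W hκ hRW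
  refine ⟨π, ⟨?_, h2, ?_, ?_⟩⟩
  · rcases h3 with ⟨e, he, rfl, _⟩ | ⟨a, ha, rfl⟩ | rfl
    · exact IntermediateField.mem_adjoin_simple_self R _
    · refine sub_mem (algebraMap_mem _ _) ?_
      rw [IsScalarTower.algebraMap_apply κ R Ω]
      exact algebraMap_mem _ _
    · exact inv_mem (algebraMap_mem _ _)
  · exact (ValuationSubring.mem_nonunits_iff _).1 h1
  · intro z hz hz0
    obtain ⟨n, hn⟩ := h4 z hz hz0
    refine ⟨n, ?_⟩
    have h5 := (isU_iff W).1 hn
    rw [map_div₀, map_zpow₀] at h5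
    rwa [div_eq_one_iff_eq] at h5
    exact zpow_ne_zero _ ((Valuation.pos_iff _).2 h2).ne'

/-- **the closure of `M`** -/
theorem maxPro_mid [CharZero κ] [IsAlgClosed κ] {ℓ : ℕ} [Fact ℓ.Prime] [Algebra.IsAlgebraic R Ω]
    [Normal R Ω] {x : R} (hx : RatF κ x) {Y : Ω} {f : R} (hY : Y ^ ℓ = algebraMap R Ω f)
    (hU : HU κ (IntermediateField.adjoin R {Y})) (K1 : IntermediateField R Ω)
    (hK1 : K1 ≤ MF ℓ κ (IntermediateField.adjoin R {Y}))
    (hexp : ∃ a : ℕ, ∀ σ : Ω ≃ₐ[R] Ω, ∀ t ∈ K1, (σ ^ (ℓ ^ a)) t = t)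
    (hun : ∀ W : ValuationSubring Ω, (∀ c : κ, algebraMap κ Ω c ∈ W) →
      ∀ z ∈ MF ℓ κ (IntermediateField.adjoin R {Y}), z ≠ 0 →
        ∃ t ∈ K1, t ≠ 0 ∧ W.valuation z = W.valuation t) (z : Ω) :
    z ∈ maxPro ℓ κ K1 Ω ↔ z ∈ MF ℓ κ (IntermediateField.adjoin R {Y}) := by
  have hℓ0 : ℓ ≠ 0 := (Fact.out : ℓ.Prime).ne_zero
  have hμ : ∀ ζ : Ω, ζ ^ ℓ = 1 → ∃ c : R, algebraMap R Ω c = ζ := fun ζ => muR (κ := κ) hℓ0 ζ
  have hK : ∀ (γ : Ω ≃ₐ[R] Ω), ∀ t ∈ IntermediateField.adjoin R {Y},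
    γ t ∈ IntermediateField.adjoin R {Y} := fun γ t ht => K0_stable hμ hY γ ht
  have hle := K0_le_MF (κ := κ) hμ hY
  set K0 := IntermediateField.adjoin R {Y} with hK0
  -- uniformisers of `K1`
  have hU1 : ∀ W : ValuationSubring Ω, (∀ c : κ, algebraMap κ Ω c ∈ W) → W ≠ ⊤ →
      ∃ π π₁, Unf K0 W π ∧ Unf K1 W π₁ ∧ W.valuation π = W.valuation π₁ := by
    intro W hκ hW
    obtain ⟨π, hπ⟩ := hU W hκ hW
    obtain ⟨π₁, h1, h2, h3⟩ := hun W hκ π (hle hπ.mem) hπ.ne
    refine ⟨π, π₁, hπ, ⟨h1, h2, h3 ▸ hπ.lt, fun w hw hw0 => ?_⟩, h3⟩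
    obtain ⟨n, hn⟩ := (((mem_MF).1 (hK1 hw)).2 W hκ hW).val' hπ hw0
    exact ⟨n, by rw [hn, h3]⟩
  constructor
  · intro hz
    let MK : IntermediateField K1 Ω :=
      { (MF ℓ κ K0).toSubfield with
        algebraMap_mem' := fun r => hK1 r.2
        inv_mem' := fun a ha => (MF ℓ κ K0).inv_mem ha }
    have hle' : maxPro ℓ κ K1 Ω ≤ MK := by
      refine iSup_le ?_
      rintro ⟨L, hL, hLu⟩ y hy
      change Mem ℓ κ K0 y
      constructor
      · obtain ⟨a, ha⟩ := hL.card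
        obtain ⟨b, hb⟩ := hexp
        haveI := hL.fin
        haveI := hL.gal
        refine ⟨b + a, fun σ γ => ?_⟩
        set τ : Ω ≃ₐ[R] Ω := γ⁻¹ * σ * γ with hτ
        have h2 : τ ^ (ℓ ^ b) ∈ K1.fixingSubgroup := by
          rw [IntermediateField.mem_fixingSubgroup_iff]
          intro t ht
          exact hb τ t ht
        let τ' : Ω ≃ₐ[K1] Ω := IntermediateField.fixingSubgroupEquiv K1 ⟨τ ^ (ℓ ^ b), h2⟩
        have h3 : ∀ (j : ℕ) (w : Ω), (τ' ^ j) w = ((τ ^ (ℓ ^ b)) ^ j) w := by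
          intro j
          induction j with
          | zero => intro w; simp
          | succ j ih =>
            intro w
            rw [pow_succ, AlgEquiv.mul_apply, ih, pow_succ, AlgEquiv.mul_apply]
            rfl
        have h4 : (AlgEquiv.restrictNormalHom L τ') ^ (ℓ ^ a) = 1 := by
          rw [← ha, ← IsGalois.card_aut_eq_finrank]
          exact pow_card_eq_one'
        rw [← map_pow] at h4
        have h5 : (τ' ^ (ℓ ^ a)) y = y := by
          have := AlgEquiv.restrictNormal_commutes (τ' ^ (ℓ ^ a)) L ⟨y, hy⟩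
          have h6 : (τ' ^ (ℓ ^ a)).restrictNormal L = 1 := h4
          rw [h6] at this
          exact this.symm
        rw [h3, ← pow_mul, ← pow_add] at h5
        have h7 : γ⁻¹ * σ ^ (ℓ ^ (b + a)) * γ = τ ^ (ℓ ^ (b + a)) := by
          rw [hτ]
          have := conj_pow (i := ℓ ^ (b + a)) (a := γ⁻¹) (b := σ)
          rw [inv_inv] at this
          exact this.symm
        rw [← h7] at h5
        have h8 : γ (γ⁻¹ ((σ ^ (ℓ ^ (b + a))) (γ y))) = γ y := by
          congr 1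
        have h9 : ∀ w, γ (γ⁻¹ w) = w := fun w => by
          rw [← AlgEquiv.mul_apply, mul_inv_cancel, AlgEquiv.one_apply]
        rwa [h9] at h8
      · intro W hκ hW
        obtain ⟨π, π₁, hπ, hπ₁, hππ⟩ := hU1 W hκ hW
        have h1 : Apx K1 W y := by
          refine Apx.of_unr hπ₁ (hres hx K1 W hκ hW) L.toSubfield
            (fun t ht => L.algebraMap_mem ⟨t, ht⟩) ?_ hy
          intro w hw hw0
          obtain ⟨t, ht0, ht⟩ := hLu W hκ w hw hw0
          have ht0' : (t : Ω) ≠ 0 := by simpa using ht0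
          refine ⟨t, t.2, ht0', ?_⟩
          have h1 := (isU_iff W).1 ht
          have h2 : algebraMap K1 Ω t = (t : Ω) := rfl
          rw [h2, map_div₀] at h1
          rwa [div_eq_one_iff_eq] at h1
          exact ((Valuation.pos_iff _).2 ht0').ne'
        intro s hs hs0
        obtain ⟨s', hs', hs0', hss⟩ := hun W hκ s (hle hs) hs0
        obtain ⟨t, ht, ht1⟩ := h1 s' hs' hs0'
        obtain ⟨t', ht', ht1'⟩ := ((mem_MF).1 (hK1 ht)).2 W hκ hW s hs hs0
        refine ⟨t', ht', ?_⟩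
        have h10 : y - t' = (y - t) + (t - t') := by ring
        rw [h10]
        refine (Valuation.map_add _ _ _).trans (max_le ?_ ht1')
        rw [hss]
        exact ht1
    exact hle' hz
  · intro hz
    haveI : CharZero K1 := charZero_of_injective_algebraMap (algebraMap κ K1).injective
    haveI : Normal K1 Ω := Normal.tower_top_of_normal R K1 Ω
    let S : IntermediateField K1 Ω := IntermediateField.extendScalars hK1
    have hS : ∀ y, y ∈ S ↔ Mem ℓ κ K0 y := fun y => IntermediateField.mem_extendScalars hK1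
    have hres' : ∀ (σ : Ω ≃ₐ[K1] Ω) (j : ℕ) (w : Ω),
        (σ ^ j) w = ((σ.restrictScalars R) ^ j) w := by
      intro σ j
      induction j with
      | zero => intro w; simp
      | succ j ih =>
        intro w
        rw [pow_succ, AlgEquiv.mul_apply, ih, pow_succ, AlgEquiv.mul_apply]
        rfl
    obtain ⟨N, hzN, hNS, hN⟩ := exists_lev (ℓ := ℓ) S
      (fun σ y hy => (hS _).2 (((hS y).1 hy).conj hK (σ.restrictScalars R)))
      (fun θ hθ σ => by
        obtain ⟨k, hk⟩ := ((hS θ).1 hθ).1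
        refine ⟨k, ?_⟩
        rw [hres']
        exact hk (σ.restrictScalars R) 1)
      ((hS z).2 hz)
    have hNu : Unr κ K1 Ω N := by
      intro W hκ w hw hw0
      obtain ⟨t, ht, ht0, h1⟩ := hun W hκ w ((hS w).1 (hNS hw)) hw0
      refine ⟨⟨t, ht⟩, fun h => ht0 (congrArg Subtype.val h), ?_⟩
      rw [isU_iff]
      have h2 : algebraMap K1 Ω ⟨t, ht⟩ = t := rfl
      rw [h2, map_div₀, h1, div_self]
      exact ((Valuation.pos_iff _).2 ht0).ne'
    have h3 : N ≤ maxPro ℓ κ K1 Ω :=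
      le_iSup (fun L : {L : IntermediateField K1 Ω // Lev ℓ L ∧ Unr κ K1 Ω L} => L.1) ⟨N, hN, hNu⟩
    exact h3 hzN

end

end Pool.Agent.H59.SCT
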