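import Pool.Agent.H59.SCT.Clo

/-! # The field of the geometrically pro-`ℓ` fundamental group of an intermediate field -/

set_option autoImplicit false
set_option linter.style.haveILetI false

open Polynomial

namespace Pool.Agent.H59.SCT

open Pool.Agent.Y157.PS Pool.Agent.Y948.PS

section

variable {k Ω : Type} [Field k] [CharZero k] [Field Ω] [Algebra k Ω] [IsAlgClosed Ω]

omit [CharZero k] [IsAlgClosed Ω] in
/-- an element of `k(x, y)` as a field of its own -/
theorem adj_top (x y : Ω) :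
    IntermediateField.adjoin k
      {(⟨x, IntermediateField.subset_adjoin _ _ (by simp)⟩ : IntermediateField.adjoin k {x, y}),
        ⟨y, IntermediateField.subset_adjoin _ _ (by simp)⟩} = ⊤ := by
  apply IntermediateField.map_injective (IntermediateField.adjoin k {x, y}).val
  rw [IntermediateField.adjoin_map, Set.image_insert_eq, Set.image_singleton]
  have h5 : IntermediateField.map (IntermediateField.adjoin k {x, y}).val ⊤ =
      IntermediateField.adjoin k {x, y} := by
    ext z
    constructor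
    · rintro ⟨w, -, rfl⟩
      exact w.2
    · intro hz
      exact ⟨⟨z, hz⟩, trivial, rfl⟩
  rw [h5]
  rfl

/-- **the maximal unramified pro-`ℓ` extension of `k̄ F` is `M`** -/
theorem proEll_mid {ℓ : ℕ} [Fact ℓ.Prime] {x y : Ω} (hx : Transcendental k x)
    (halg : Algebra.IsAlgebraic (IntermediateField.adjoin k {x}) Ω) (P : k[X])
    (hP : P.Separable) (hdvd : ℓ ∣ P.natDegree) (hP0 : 0 < P.natDegree)
    (hy : y ^ ℓ = aeval x P) (F : IntermediateField k Ω) (hxF : x ∈ F) (hFG : F.FG)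
    (hF : F ≤ proEll ℓ (IntermediateField.adjoin k {x, y}))
    (hun : ∀ W : ValuationSubring Ω, (∀ c : k, algebraMap k Ω c ∈ W) →
      ∀ z ∈ proEll ℓ (IntermediateField.adjoin k {x, y}), z ≠ 0 →
        ∃ t ∈ geom F, t ≠ 0 ∧ z / t ∈ W ∧ (z / t)⁻¹ ∈ W) :
    proEll ℓ F = proEll ℓ (IntermediateField.adjoin k {x, y}) := by
  classical
  have hp := (Fact.out : ℓ.Prime).pos
  have hℓ0 : ℓ ≠ 0 := hp.ne'
  set F₁ := IntermediateField.adjoin k {x, y} with hF₁
  have hxF₁ : x ∈ F₁ := IntermediateField.subset_adjoin _ _ (by simp)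
  have hyF₁ : y ∈ F₁ := IntermediateField.subset_adjoin _ _ (by simp)
  have htop : IntermediateField.adjoin k {(⟨x, hxF₁⟩ : F₁), ⟨y, hyF₁⟩} = ⊤ := adj_top x y
  haveI := alg_over halg F₁ hxF₁
  haveI : IsAlgClosure F₁ Ω := ⟨inferInstance, inferInstance⟩
  -- the constants
  haveI hacl : IsAlgClosure k (algebraicClosure k Ω) := inferInstance
  haveI hclκ : IsAlgClosed (algebraicClosure k Ω) := hacl.isAlgClosed
  haveI : CharZero (algebraicClosure k Ω) :=
    charZero_of_injective_algebraMap (algebraMap k (algebraicClosure k Ω)).injective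
  have hPne : P ≠ 0 := fun h => by simp [h] at hP0
  have hc : P.leadingCoeff ≠ 0 := leadingCoeff_ne_zero.2 hPne
  obtain ⟨δ, hδ⟩ := IsAlgClosed.exists_pow_nat_eq
    (algebraMap k (algebraicClosure k Ω) P.leadingCoeff)⁻¹ hp
  have hδ0 : δ ≠ 0 := by
    rintro rfl
    rw [zero_pow hℓ0] at hδ
    exact (inv_ne_zero ((_root_.map_ne_zero _).2 hc)) hδ.symm
  have hx' : Transcendental (algebraicClosure k Ω) x := trans_up hx
  -- `κ(x)`
  let R := IntermediateField.adjoin (algebraicClosure k Ω) {x}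
  let xR : R := ⟨x, IntermediateField.mem_adjoin_simple_self _ _⟩
  have hrat : RatF (algebraicClosure k Ω) xR := ratF_adj hx'
  let Pk : (algebraicClosure k Ω)[X] := P.map (algebraMap k (algebraicClosure k Ω))
  have hPk : Pk.Separable := hP.map
  have hPk0 : Pk ≠ 0 := (Polynomial.map_ne_zero_iff (algebraMap k _).injective).2 hPne
  let B : Finset (algebraicClosure k Ω) := Pk.roots.toFinset
  have hnd : Pk.roots.Nodup := nodup_roots hPk
  have hBc : B.card = P.natDegree := by
    rw [Multiset.toFinset_card_of_nodup hnd, IsAlgClosed.card_roots_eq_natDegree, natDegree_map]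
  have hprod : Pk = C Pk.leadingCoeff * ∏ e ∈ B, (X - C e) := by
    have h1 := IsAlgClosed.splits Pk
    have h2 := h1.eq_prod_roots
    rw [Finset.prod_multiset_map_count] at h2
    conv_lhs => rw [h2]
    congr 1
    refine Finset.prod_congr rfl fun e he => ?_
    rw [Multiset.count_eq_one_of_mem hnd (Multiset.mem_toFinset.1 he), pow_one]
  have hY : ((δ : Ω) * y) ^ ℓ = ∏ e ∈ B, (algebraMap R Ω xR - algebraMap (algebraicClosure k Ω) Ω e) := by
    have h1 : aeval x P = aeval x Pk := (aeval_map_algebraMap _ x P).symm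
    have h2 : (δ : Ω) ^ ℓ = (algebraMap k Ω P.leadingCoeff)⁻¹ := by
      have := congrArg (fun z : algebraicClosure k Ω => (z : Ω)) hδ
      exact this
    have h3 : Pk.leadingCoeff = algebraMap k (algebraicClosure k Ω) P.leadingCoeff :=
      leadingCoeff_map _
    rw [mul_pow, hy, h2, h1]
    conv_lhs => rw [hprod]
    rw [map_mul, aeval_C, h3, map_prod, ← IsScalarTower.algebraMap_apply, ← mul_assoc,
      inv_mul_cancel₀ ((_root_.map_ne_zero _).2 hc), one_mul]
    refine Finset.prod_congr rfl fun e _ => ?_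
    rw [map_sub, aeval_X, aeval_C]
    rfl
  have hYf : ((δ : Ω) * y) ^ ℓ = algebraMap R Ω (∏ e ∈ B, (xR - algebraMap (algebraicClosure k Ω) R e)) := by
    rw [hY, map_prod]
    refine Finset.prod_congr rfl fun e _ => ?_
    rw [map_sub, ← IsScalarTower.algebraMap_apply]
  haveI hclR : IsAlgClosure R Ω := by
    refine closure_R (k := k) (F := F₁) (x := ⟨x, hxF₁⟩) (y := ⟨y, hyF₁⟩) htop δ hδ0 hp ?_
    have h1 : algebraMap F₁ Ω ⟨y, hyF₁⟩ = y := rfl
    rw [h1, hYf]
    exact SetLike.coe_mem _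
  haveI : Normal R Ω := IsAlgClosure.normal R Ω
  have hBne : B.Nonempty := by
    rw [← Finset.card_pos, hBc]
    exact hP0
  have hHU : HU (algebraicClosure k Ω) (IntermediateField.adjoin R {(δ : Ω) * y}) :=
    hu_K0 hrat (hBc ▸ hdvd) hBne hY
  -- the field `M`
  have hMF : ∀ z, z ∈ proEll ℓ F₁ ↔
      z ∈ MF ℓ (algebraicClosure k Ω) (IntermediateField.adjoin R {(δ : Ω) * y}) := by
    intro z
    rw [proEll_iff, ← maxPro_geom ℓ k (x := (⟨x, hxF₁⟩ : F₁)) (y := ⟨y, hyF₁⟩) htop δ hδ0 z,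
      mem_MF]
    exact ⟨fun h => Pool.Agent.Y948.PS.maxPro_le hrat hYf hHU h,
      fun h => Pool.Agent.Y948.PS.le_maxPro hYf hHU h⟩
  -- the field `k̄ F` over `R`
  have hRg : ∀ z ∈ R, z ∈ geom F := by
    refine adjoin_le_sub (T := (geom F).toSubfield) (fun c => const_mem_geom F c) ?_
    rintro z rfl
    exact (le_sup_left : F ≤ geom F) hxF
  let K1 : IntermediateField R Ω :=
    { (geom F).toSubfield with
      algebraMap_mem' := fun r => hRg _ r.2
      inv_mem' := fun a ha => (geom F).inv_mem ha }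
  have hK1m : ∀ z, z ∈ K1 ↔ z ∈ geom F := fun z => Iff.rfl
  have hgM : geom F ≤ proEll ℓ F₁ :=
    sup_le hF (fun c hc => geom_le_proEll _ (const_mem_geom _ ⟨c, hc⟩))
  have hK1 : K1 ≤ MF ℓ (algebraicClosure k Ω) (IntermediateField.adjoin R {(δ : Ω) * y}) :=
    fun z hz => (hMF z).1 (hgM ((hK1m z).1 hz))
  have hexp : ∃ a : ℕ, ∀ σ : Ω ≃ₐ[R] Ω, ∀ t ∈ K1, (σ ^ (ℓ ^ a)) t = t := by
    obtain ⟨S, hS⟩ := hFG
    have h1 : ∀ s ∈ S, ∃ a : ℕ, ∀ σ : Ω ≃ₐ[R] Ω, (σ ^ (ℓ ^ a)) s = s := by
      intro s hs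
      have h2 : s ∈ F := by rw [← hS]; exact IntermediateField.subset_adjoin _ _ hs
      obtain ⟨a, ha⟩ := ((mem_MF).1 ((hMF s).1 (hF h2))).1
      exact ⟨a, fun σ => ha σ 1⟩
    choose! a ha using h1
    refine ⟨S.sup a, fun σ t ht => ?_⟩
    set τ := σ ^ (ℓ ^ (S.sup a)) with hτ
    have h2 : ∀ s ∈ S, τ s = s := by
      intro s hs
      obtain ⟨j, hj⟩ := Nat.exists_eq_add_of_le (Finset.le_sup (f := a) hs)
      have h3 := ha s hs (σ ^ (ℓ ^ j))
      rw [← pow_mul, ← pow_add, add_comm, ← hj] at h3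
      exact h3
    have h3 : ∀ c : algebraicClosure k Ω, τ (c : Ω) = c := fun c =>
      τ.commutes (algebraMap (algebraicClosure k Ω) R c)
    let Fx : IntermediateField k Ω :=
      { carrier := {z | τ z = z}
        mul_mem' := fun {a b} ha hb => by
          change _ = _ at ha hb
          change _ = _
          rw [map_mul, ha, hb]
        add_mem' := fun {a b} ha hb => by
          change _ = _ at ha hb
          change _ = _
          rw [map_add, ha, hb]
        algebraMap_mem' := fun r => h3 (algebraMap k _ r)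
        inv_mem' := fun a ha => by
          change _ = _ at ha
          change _ = _
          rw [map_inv₀, ha] }
    have h4 : geom F ≤ Fx := by
      refine sup_le ?_ fun c hc => h3 ⟨c, hc⟩
      rw [← hS, IntermediateField.adjoin_le_iff]
      exact fun s hs => h2 s hs
    exact h4 ht
  have hun' : ∀ W : ValuationSubring Ω,
      (∀ c : algebraicClosure k Ω, algebraMap (algebraicClosure k Ω) Ω c ∈ W) →
      ∀ z ∈ MF ℓ (algebraicClosure k Ω) (IntermediateField.adjoin R {(δ : Ω) * y}), z ≠ 0 →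
        ∃ t ∈ K1, t ≠ 0 ∧ W.valuation z = W.valuation t := by
    intro W hW z hz hz0
    obtain ⟨t, ht, ht0, h1, h2⟩ := hun W (fun c => hW (algebraMap k _ c)) z ((hMF z).2 hz) hz0
    refine ⟨t, ht, ht0, ?_⟩
    have h3 := (isU_iff W).1 ⟨div_ne_zero hz0 ht0, h1, h2⟩
    rw [map_div₀] at h3
    rwa [div_eq_one_iff_eq] at h3
    exact ((Valuation.pos_iff _).2 ht0).ne'
  have hmain := maxPro_mid hrat hYf hHU K1 hK1 hexp hun'
  ext z
  rw [hMF, ← hmain z]
  unfold proEll
  rw [maxProEll_eq]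
  let e : geom F ≃+* K1 :=
    { toFun := fun z => ⟨z.1, z.2⟩
      invFun := fun z => ⟨z.1, z.2⟩
      left_inv := fun _ => rfl
      right_inv := fun _ => rfl
      map_mul' := fun _ _ => rfl
      map_add' := fun _ _ => rfl }
  have h9 := Pool.Agent.Y157.PS.maxPro_congr (ℓ := ℓ) (κ₁ := k) (κ₂ := algebraicClosure k Ω) e
    (fun a => rfl) (fun W => ⟨fun h c => h (algebraMap k (algebraicClosure k Ω) c),
      fun h c => Pool.Agent.W620.SC.const_mem h c.2⟩) z
  exact h9

end

end Pool.Agent.H59.SCT
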