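import Mathlib

/-!
# Geometrically pro-`ℓ` fundamental groups inside one algebraically closed field: definitions

All fields are subfields of one algebraically closed extension `Ω` of the ground field `k`.
-/

set_option autoImplicit false

namespace Pool.Agent.H59.SCT

/-- The algebraic extension `L` of `K` in `Ω` is unramified at all valuation rings of `Ω` that
contain `k`: every nonzero element of `L` has the same valuation as an element of `K`.  (If `K` is
a function field of one variable over the algebraic closure of `k` and `k` has characteristic zero,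
then this says that `L/K` is unramified over all points of the smooth projective curve.) -/
def Unramified (k : Type) {K Ω : Type} [Field k] [Field K] [Field Ω] [Algebra k Ω] [Algebra K Ω]
    (L : IntermediateField K Ω) : Prop :=
  ∀ W : ValuationSubring Ω, (∀ c : k, algebraMap k Ω c ∈ W) → ∀ z ∈ L, z ≠ 0 →
    ∃ t : K, t ≠ 0 ∧ z / algebraMap K Ω t ∈ W ∧ (z / algebraMap K Ω t)⁻¹ ∈ W

/-- `L/K` is a finite Galois extension whose degree is a power of `ℓ`. -/
def FiniteProEll (ℓ : ℕ) {K Ω : Type} [Field K] [Field Ω] [Algebra K Ω]
    (L : IntermediateField K Ω) : Prop :=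
  FiniteDimensional K L ∧ IsGalois K L ∧ ∃ m : ℕ, Module.finrank K L = ℓ ^ m

/-- The maximal unramified pro-`ℓ` extension of `K` in `Ω`: the compositum of the finite Galois
extensions of `K` whose degree is a power of `ℓ` and which are unramified. -/
noncomputable def maxProEll (ℓ : ℕ) (k K Ω : Type) [Field k] [Field K] [Field Ω] [Algebra k Ω]
    [Algebra K Ω] : IntermediateField K Ω :=
  ⨆ L : {L : IntermediateField K Ω // FiniteProEll ℓ L ∧ Unramified k L}, L.1

/-- `k̄ F`, the compositum of `F` and of the algebraic closure of `k` in `Ω`. -/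
noncomputable def geom {k Ω : Type} [Field k] [Field Ω] [Algebra k Ω] (F : IntermediateField k Ω) :
    IntermediateField k Ω := F ⊔ algebraicClosure k Ω

/-- The maximal unramified pro-`ℓ` extension of `k̄ F` in `Ω`. -/
noncomputable def proEll (ℓ : ℕ) {k Ω : Type} [Field k] [Field Ω] [Algebra k Ω]
    (F : IntermediateField k Ω) : IntermediateField k Ω :=
  (maxProEll ℓ k (geom F) Ω).restrictScalars k

/-- Let `F ⊆ N ⊆ Ω` be fields, `k ⊆ F`, and let `k̄` be the algebraic closure of `k` in `Ω`.  A
splitting of `Gal(N/F) → Gal(k̄/k)`: a continuous homomorphism `s` from `Gal(k̄/k)` to `Gal(N/F)` such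
that `s(σ)` acts as `σ` on the elements of `k̄ ∩ N`. -/
structure Splitting {k Ω : Type} [Field k] [Field Ω] [Algebra k Ω] (F : IntermediateField k Ω)
    (N : IntermediateField F Ω) where
  /-- the homomorphism `Gal(k̄/k) → Gal(N/F)` -/
  toHom : (algebraicClosure k Ω ≃ₐ[k] algebraicClosure k Ω) →* (N ≃ₐ[F] N)
  cont : Continuous toHom
  compat : ∀ (σ : algebraicClosure k Ω ≃ₐ[k] algebraicClosure k Ω) (c : algebraicClosure k Ω)
    (z : N), (z : Ω) = (c : Ω) → ((toHom σ z : N) : Ω) = ((σ c : algebraicClosure k Ω) : Ω)

/-- Let `K ⊆ M ⊆ Ω`.  The extension `M/K` is unramified at all valuation rings of `Ω` that contain `k`: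
every nonzero element of `M` has the same valuation as an element of `K`. -/
def UnramifiedOver {k Ω : Type} [Field k] [Field Ω] [Algebra k Ω] (K M : IntermediateField k Ω) :
    Prop :=
  ∀ W : ValuationSubring Ω, (∀ c : k, algebraMap k Ω c ∈ W) → ∀ z ∈ M, z ≠ 0 →
    ∃ t ∈ K, t ≠ 0 ∧ z / t ∈ W ∧ (z / t)⁻¹ ∈ W

section places

variable {k Ω : Type} [Field k] [Field Ω] [Algebra k Ω] {F : IntermediateField k Ω}
  {N : IntermediateField F Ω}

/-- The valuation ring `W` of `N` contains `k`, and its residue field restricted to `F` is `k`: every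
element of `W ∩ F` is congruent to an element of `k` modulo the maximal ideal of `W`. -/
def RationalOver (W : ValuationSubring N) : Prop :=
  (∀ c : k, algebraMap F N (algebraMap k F c) ∈ W) ∧
    ∀ z : F, algebraMap F N z ∈ W → ∃ c : k, algebraMap F N (z - algebraMap k F c) ∈ W.nonunits

/-- The image of `s` in `Gal((M ∩ N)/F)` is contained in the decomposition group of `W ∩ M`. -/
def InDecomposition (M : IntermediateField k Ω) (s : Splitting F N) (W : ValuationSubring N) :
    Prop :=
  ∀ σ, ∀ z : N, (z : Ω) ∈ M → (s.toHom σ z ∈ W ↔ z ∈ W)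

/-- The splitting `s` of `Gal(N/F) → Gal(k̄/k)` induces on `M ⊆ N` the section of exactly one place,
and it is `k`-rational: there is a valuation ring `W` of `N` with the property `P`, such that
`W ∩ F` has the residue field `k` and the image of `s` in `Gal(M/F)` is contained in the decomposition
group of `W ∩ M`; and `W ∩ M` is the only valuation ring of `M` of this kind, even among those
with the weaker property `Q`. -/
def FromOneRationalPlace (M : IntermediateField k Ω) (s : Splitting F N)
    (P Q : ValuationSubring N → Prop) : Prop :=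
  ∃ W : ValuationSubring N, P W ∧ RationalOver W ∧ InDecomposition M s W ∧
    ∀ W' : ValuationSubring N, (∀ c : k, algebraMap F N (algebraMap k F c) ∈ W') → Q W' →
      InDecomposition M s W' → ∀ z : N, (z : Ω) ∈ M → (z ∈ W' ↔ z ∈ W)

end places

end Pool.Agent.H59.SCT
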