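import Pool.Agent.H59.SCT.Adj
import Pool.Agent.Results.MP_c385f6_ag.CoveringsOfTwistsByRotations

/-! # Sections of coverings branched along twisted rotation-invariant divisors -/

set_option autoImplicit false
set_option linter.style.haveILetI false

open Polynomial

namespace Pool.Agent.H59.SCT

open Pool.Agent.Y157.PS
open Pool.Agent.Results.MP_c385f6_ag

theorem comap_non' {N N' : Type} [Field N] [Field N'] (e : N ≃+* N') (W : ValuationSubring N')
    (z : N) : z ∈ (W.comap (e : N →+* N')).nonunits ↔ e z ∈ W.nonunits :=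
  non_incl (e : N →+* N') W z

/-- the theorem for rotations -/
theorem rotA (A k : Type) [CommRing A] [IsDomain A] [IsDiscreteValuationRing A]
    [IsAdicComplete (IsLocalRing.maximalIdeal A) A] [Finite (IsLocalRing.ResidueField A)]
    [Field k] [CharZero k] [Algebra A k] [IsFractionRing A k] (ℓ : ℕ) [Fact ℓ.Prime] (j : ℕ)
    (hj : 1 ≤ j) (g : A[X]) (a : k) (hℓ : IsUnit (ℓ : A))
    (hg : CoveringsOfTwistsByRotations.GoodPolynomial (ℓ ^ j) g)
    (ha : CoveringsOfTwistsByRotations.ValuationNotDivisible A (ℓ ^ j) a)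
    (Ω : Type) [Field Ω] [Algebra k Ω] [IsAlgClosed Ω] (F : IntermediateField k Ω) (x : F) (y : Ω)
    (hx : Transcendental k (x : Ω))
    (halg : Algebra.IsAlgebraic (IntermediateField.adjoin k {(x : Ω)}) Ω)
    (hy : y ^ ℓ = aeval (algebraMap k Ω a * (x : Ω) ^ (ℓ ^ j)) (g.map (algebraMap A k)))
    (hF : F ≤ proEll ℓ (IntermediateField.adjoin k {(x : Ω), y})) (N : IntermediateField F Ω)
    (hN : ∀ z ∈ proEll ℓ (IntermediateField.adjoin k {(x : Ω), y}), z ∈ N) (s : Splitting F N) :
    FromOneRationalPlace (proEll ℓ (IntermediateField.adjoin k {(x : Ω), y})) s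
      (fun W => algebraMap F N x ∈ W.nonunits ∨ algebraMap F N x⁻¹ ∈ W.nonunits)
      (fun W => algebraMap F N x ∈ W.nonunits ∨ algebraMap F N x⁻¹ ∈ W.nonunits ∨
        algebraMap F N (aeval (algebraMap k F a * x ^ (ℓ ^ j)) (g.map (algebraMap A k))) ∈
          W.nonunits) := by
  have hp := (Fact.out : ℓ.Prime).pos
  have hxF : (x : Ω) ∈ F := x.2
  -- the polynomial is not zero at `x`
  have hevx : aeval (algebraMap k Ω a * (x : Ω) ^ (ℓ ^ j)) (g.map (algebraMap A k)) ≠ 0 := by
    intro h0
    obtain ⟨ϖ, t, n, hϖ, ht, hn, ha'⟩ := ha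
    have hinj : Function.Injective (algebraMap A k) := IsFractionRing.injective A k
    have ha0 : a ≠ 0 := by
      rw [ha']
      exact mul_ne_zero ((map_ne_zero_iff _ hinj).2 ht.ne_zero)
        (zpow_ne_zero _ ((map_ne_zero_iff _ hinj).2 hϖ.ne_zero))
    have hg0 : g.map (algebraMap A k) ≠ 0 := by
      refine (Polynomial.map_ne_zero_iff hinj).2 ?_
      rintro rfl
      have := hg.1
      rw [leadingCoeff_zero] at this
      exact not_isUnit_zero this
    have htr : Transcendental k (algebraMap k Ω a * (x : Ω) ^ (ℓ ^ j)) := by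
      intro h1
      apply hx
      have h2 : IsAlgebraic k ((x : Ω) ^ (ℓ ^ j)) := by
        have h3 : (x : Ω) ^ (ℓ ^ j) = algebraMap k Ω a⁻¹ *
            (algebraMap k Ω a * (x : Ω) ^ (ℓ ^ j)) := by
          rw [← mul_assoc, ← map_mul, inv_mul_cancel₀ ha0, map_one, one_mul]
        rw [h3]
        exact (isAlgebraic_algebraMap _).mul h1
      exact (IsIntegral.of_pow (pow_pos hp j) h2.isIntegral).isAlgebraic
    exact htr ⟨_, hg0, h0⟩
  have hy0 : y ≠ 0 := by
    rintro rfl
    rw [zero_pow hp.ne'] at hy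
    exact hevx hy.symm
  have hyx : y ^ ℓ ∈ IntermediateField.adjoin k {(x : Ω)} := by
    have h1 : algebraMap k Ω a * (x : Ω) ^ (ℓ ^ j) ∈ IntermediateField.adjoin k {(x : Ω)} :=
      mul_mem (IntermediateField.algebraMap_mem _ a)
        (pow_mem (IntermediateField.mem_adjoin_simple_self k _) _)
    rw [hy]
    have h2 : aeval (algebraMap k Ω a * (x : Ω) ^ (ℓ ^ j)) (g.map (algebraMap A k)) =
        ((aeval (⟨_, h1⟩ : IntermediateField.adjoin k {(x : Ω)}) (g.map (algebraMap A k)) :
          IntermediateField.adjoin k {(x : Ω)}) : Ω) := by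
      have h3 := aeval_algebraMap_apply Ω (⟨_, h1⟩ : IntermediateField.adjoin k {(x : Ω)})
        (g.map (algebraMap A k))
      exact h3
    rw [h2]
    exact SetLike.coe_mem _
  obtain ⟨δ, d, y', hδ, hd, hy', hdy, hδd, hyN, h, s', hs', hM⟩ := reduction hp hx halg hy0 hyx F
    hxF hF N hN s
  -- notation
  set F' : IntermediateField k Ω := IntermediateField.adjoin k {(x : Ω), y'} with hF'
  have hxF' : (x : Ω) ∈ F' := IntermediateField.subset_adjoin _ _ (by simp)
  have hyF' : y' ∈ F' := IntermediateField.subset_adjoin _ _ (by simp)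
  haveI := alg_over halg F' hxF'
  haveI : IsAlgClosure F' Ω := ⟨inferInstance, inferInstance⟩
  let N' : IntermediateField F' Ω := same N F' h
  have hfun : CoveringsOfTwistsByRotations.IsFunctionField ℓ (ℓ ^ j) (g.map (algebraMap A k)) a d
      (⟨x, hxF'⟩ : F') ⟨y', hyF'⟩ := by
    refine ⟨?_, ?_, ?_⟩
    · intro h1
      exact hx (h1.algebraMap)
    · apply (algebraMap F' Ω).injective
      rw [map_mul, map_pow, ← IsScalarTower.algebraMap_apply]
      refine hdy.trans (hy.trans ?_)
      have h3 := aeval_algebraMap_apply Ω (algebraMap k F' a * (⟨x, hxF'⟩ : F') ^ (ℓ ^ j))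
        (g.map (algebraMap A k))
      rw [← h3, map_mul, map_pow, ← IsScalarTower.algebraMap_apply]
      rfl
    · apply IntermediateField.map_injective F'.val
      rw [IntermediateField.adjoin_map, Set.image_insert_eq, Set.image_singleton]
      have h5 : IntermediateField.map F'.val ⊤ = F' := by
        ext z
        constructor
        · rintro ⟨w, -, rfl⟩
          exact w.2
        · intro hz
          exact ⟨⟨z, hz⟩, trivial, rfl⟩
      rw [h5]
      rfl
  let L : IntermediateField F' Ω := IntermediateField.adjoin F' (F : Set Ω)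
  have hL : L ≤ CoveringsOfTwistsByRotations.proEllField ℓ k F' Ω := by
    rw [CoveringsOfTwistsByRotations.proEll_eq]
    rw [IntermediateField.adjoin_le_iff]
    intro z hz
    exact (hM z).2 (hF hz)
  have hN' : CoveringsOfTwistsByRotations.proEllField ℓ k F' Ω ≤ N' := by
    rw [CoveringsOfTwistsByRotations.proEll_eq]
    intro z hz
    exact hN z ((hM z).1 hz)
  let s'' : CoveringsOfTwistsByRotations.Splitting k F' Ω (algebraicClosure k Ω) N' :=
    ⟨s'.toHom, s'.cont, fun σ c z hz => s'.compat σ c z hz⟩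
  have hFN : ∀ z ∈ F, z ∈ N := fun z hz => N.algebraMap_mem ⟨z, hz⟩
  have hsL : ∀ σ, ∀ z : N', algebraMap N' Ω z ∈ L → s''.toHom σ z = z := by
    intro σ z hz
    have h4 : L ≤ Pool.Agent.V11235.SL.fixF N' (s'.toHom σ) := by
      rw [IntermediateField.adjoin_le_iff]
      intro w hw
      refine ⟨hFN w hw, ?_⟩
      apply Subtype.ext
      rw [hs' σ ⟨w, hFN w hw⟩ ⟨w, hFN w hw⟩ rfl]
      have h5 : (⟨w, hFN w hw⟩ : N) = algebraMap F N ⟨w, hw⟩ := rfl
      rw [h5, (s.toHom σ).commutes]
      rfl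
    obtain ⟨h5, h6⟩ := h4 hz
    exact h6
  obtain ⟨W', hW1, hW2, hW3, hW4, -, hW6⟩ := CoveringsOfTwistsByRotations.result A k ℓ j hj g a d hℓ
    hg ha hd F' Ω ⟨x, hxF'⟩ ⟨y', hyF'⟩ hfun L N' hL hN' s'' hsL
  let e : N ≃+* N' := sameEquiv N F' h
  have hfxN : ∀ z : N, (z : Ω) ∈ proEll ℓ (IntermediateField.adjoin k {(x : Ω), y}) ↔
      algebraMap N' Ω (e z) ∈ CoveringsOfTwistsByRotations.proEllField ℓ k F' Ω := by
    intro z
    rw [CoveringsOfTwistsByRotations.proEll_eq]
    exact (hM z).symm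
  have hact : ∀ σ (z : N), e (s.toHom σ z) = s''.toHom σ (e z) := by
    intro σ z
    apply Subtype.ext
    exact (hs' σ (e z) z rfl).symm
  have hkey : ∀ (V : ValuationSubring N) (V' : ValuationSubring N'),
      (∀ z, z ∈ V ↔ e z ∈ V') →
      (InDecomposition (proEll ℓ (IntermediateField.adjoin k {(x : Ω), y})) s V ↔
        CoveringsOfTwistsByRotations.InDecomposition s''
          (CoveringsOfTwistsByRotations.proEllField ℓ k F' Ω) V') := by
    intro V V' hV
    constructor
    · intro h1 σ z hz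
      obtain ⟨w, rfl⟩ := e.surjective z
      rw [← hact, ← hV, ← hV]
      exact h1 σ w ((hfxN w).2 hz)
    · intro h1 σ z hz
      rw [hV, hV, hact]
      exact h1 σ (e z) ((hfxN z).1 hz)
  have hxe : e (algebraMap F N x) = algebraMap F' N' ⟨x, hxF'⟩ := rfl
  refine ⟨W'.comap (e : N →+* N'), ?_, ⟨?_, ?_⟩, ?_, ?_⟩
  · rcases hW1 with h1 | h1
    · left
      rw [comap_non', hxe]
      exact h1.2
    · right
      rw [comap_non', map_inv₀, map_inv₀, hxe, ← map_inv₀]
      exact h1.2
  · intro c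
    rw [ValuationSubring.mem_comap]
    rcases hW1 with h1 | h1 <;> exact h1.1 c
  · intro z hz
    rw [ValuationSubring.mem_comap] at hz
    obtain ⟨c, hc⟩ := hW3 (e (algebraMap F N z)) (IntermediateField.subset_adjoin _ _ z.2) hz
    refine ⟨c, ?_⟩
    rw [comap_non', map_sub, map_sub]
    exact hc
  · exact (hkey (W'.comap (e : N →+* N')) W' (fun z => Iff.rfl)).2 hW4
  · intro V hVk hVQ hVs z hz
    let V' : ValuationSubring N' := V.comap (e.symm : N' →+* N)
    have hV' : ∀ z, z ∈ V ↔ e z ∈ V' := by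
      intro z
      change z ∈ V ↔ e.symm (e z) ∈ V
      rw [e.symm_apply_apply]
    have hV'n : ∀ z, z ∈ V'.nonunits ↔ e.symm z ∈ V.nonunits := fun z => comap_non' e.symm V z
    have hk' : ∀ c : k, algebraMap F' N' (algebraMap k F' c) ∈ V' := fun c => hVk c
    have h7 := hW6 V' ?_ ((hkey V V' hV').1 hVs) (e z) ((hfxN z).1 hz)
    · rw [hV', h7]
      rfl
    · rcases hVQ with h8 | h8 | h8
      · left; left
        exact ⟨hk', (hV'n _).2 h8⟩
      · left; right
        refine ⟨hk', (hV'n _).2 ?_⟩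
        rw [map_inv₀, map_inv₀]
        rw [map_inv₀] at h8
        exact h8
      · right
        refine ⟨hk', (hV'n _).2 ?_⟩
        convert h8 using 1
        apply Subtype.ext
        change ((aeval (algebraMap k F' a * (⟨x, hxF'⟩ : F') ^ (ℓ ^ j)) (g.map (algebraMap A k)) : F')
          : Ω) = ((aeval (algebraMap k F a * x ^ (ℓ ^ j)) (g.map (algebraMap A k)) : F) : Ω)
        have h9 := aeval_algebraMap_apply Ω (algebraMap k F' a * (⟨x, hxF'⟩ : F') ^ (ℓ ^ j))
          (g.map (algebraMap A k))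
        have h10 := aeval_algebraMap_apply Ω (algebraMap k F a * x ^ (ℓ ^ j))
          (g.map (algebraMap A k))
        exact h9.symm.trans h10

end Pool.Agent.H59.SCT
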