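import Pool.Agent.H59.SCT.Adj
import Pool.Agent.Results.MP_c385f6_ag.CoveringsOfTwistsByRotations

/-! # The section is determined by the place -/

set_option autoImplicit false
set_option linter.style.haveILetI false

namespace Pool.Agent.H59.SCT

open Pool.Agent.Results.MP_c385f6_ag

theorem unique {k Ω : Type} [Field k] [CharZero k] [Field Ω] [Algebra k Ω] [IsAlgClosed Ω] (ℓ : ℕ)
    (F : IntermediateField k Ω) [Algebra.IsAlgebraic F Ω] (N : IntermediateField F Ω)
    (hN : ∀ z ∈ proEll ℓ F, z ∈ N) (s s' : Splitting F N) (W : ValuationSubring N)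
    (hW : RationalOver W) (h : InDecomposition (proEll ℓ F) s W)
    (h' : InDecomposition (proEll ℓ F) s' W) (σ : algebraicClosure k Ω ≃ₐ[k] algebraicClosure k Ω)
    (z : N) (hz : (z : Ω) ∈ proEll ℓ F) : s.toHom σ z = s'.toHom σ z := by
  haveI : IsAlgClosure F Ω := ⟨inferInstance, inferInstance⟩
  have hM : ∀ z : Ω, z ∈ proEll ℓ F ↔ z ∈ CoveringsOfTwistsByRotations.proEllField ℓ k F Ω := by
    intro z
    rw [CoveringsOfTwistsByRotations.proEll_eq, proEll_iff]
  have hN' : CoveringsOfTwistsByRotations.proEllField ℓ k F Ω ≤ N := fun z hz =>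
    hN z ((hM z).2 hz)
  exact CoveringsOfTwistsByRotations.unique_section N hN'
    ⟨s.toHom, s.cont, fun σ c z hz => s.compat σ c z hz⟩
    ⟨s'.toHom, s'.cont, fun σ c z hz => s'.compat σ c z hz⟩ W hW.1 hW.2
    (fun σ z hz => h σ z ((hM _).2 hz)) (fun σ z hz => h' σ z ((hM _).2 hz)) σ z ((hM _).1 hz)

end Pool.Agent.H59.SCT
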